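import Pool.Agent.U369.HY.Final

/-!
# A Brooks type theorem for (p,1)-total labellings, and the Havet-Yu conjecture for `p = Δ - 1`

Proof.  Colour the vertices with `0, …, D - 1` (Brooks) so that the top class `I` is as small as
possible; the edges get the labels `D + p - 1, …, 2 D + p - 2` and, for the edges of a matching `M`
which avoids `I`, the label `D + p - 2`.  It remains to choose `M` such that `G - M` has a proper
edge colouring with `D` colours; by the criterion of Fournier it is enough that the vertices of
degree `D` of `G - M` induce a forest.
(1) Exchanging the colours `a` and top on a suitable union of Kempe chains, one sees that the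
vertices with two neighbours in `I` that cannot be recoloured satisfy Hall's condition with respect
to `I`: they are the edges of a graph `Q` on `I` (vertices of `I` with a common neighbour that can
be recoloured are identified) in which every set of nodes spans at most as many edges as it has
elements.
(2) Hence the edges of `Q` can be divided into groups of at most two such that every set with at
most one element of every group is a forest of `Q`.
(3) By Tutte's theorem there is a matching `M` outside `I` which leaves at most one vertex of every
group uncovered; if it is maximal, the uncovered vertices and `I` induce a forest.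
-/

set_option autoImplicit false

namespace Pool.Agent.Results.MP_b8729f_co.BrooksType

/-- `HasSpan G p l`: the graph `G` has a `(p,1)`-total labelling of span `l`, that is, labels
`0, …, l` for the vertices (`fV`) and the edges (`fE`) such that adjacent vertices get different
labels, edges sharing an endpoint get different labels, and the labels of a vertex and of an
incident edge differ by at least `p`. -/
def HasSpan {V : Type*} (G : SimpleGraph V) (p l : ℕ) : Prop :=
  ∃ (fV : V → ℕ) (fE : Sym2 V → ℕ),
    (∀ v, fV v ≤ l) ∧ (∀ e ∈ G.edgeSet, fE e ≤ l) ∧
    (∀ u v, G.Adj u v → fV u ≠ fV v) ∧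
    (∀ u v w, G.Adj u v → G.Adj u w → v ≠ w → fE s(u, v) ≠ fE s(u, w)) ∧
    (∀ u v, G.Adj u v → (p : ℤ) ≤ |(fV u : ℤ) - (fE s(u, v) : ℤ)|)

/-- (1) A finite graph with all degrees at most `D`, `D ≥ 4`, which does not contain the complete
graph on `D + 1` vertices has for every `p` a `(p,1)`-total labelling of span `2 D + p - 2`.
(2) Every finite graph with all degrees at most `p + 1`, `p ≥ 3`, has a `(p,1)`-total labelling of
span `3 p`, which is `Δ + 2 p - 1` for `Δ = p + 1`. -/
theorem result :
    (∀ (V : Type) [Fintype V] (G : SimpleGraph V) (D p : ℕ), 4 ≤ D →
      (∀ v, (G.neighborSet v).ncard ≤ D) → G.CliqueFree (D + 1) →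
      HasSpan G p (2 * D + p - 2)) ∧
    ∀ (V : Type) [Fintype V] (G : SimpleGraph V) (p : ℕ), 3 ≤ p →
      (∀ v, (G.neighborSet v).ncard ≤ p + 1) → HasSpan G p (3 * p) := by
  classical
  have key : ∀ (V : Type) [Fintype V] (G : SimpleGraph V) (v : V),
      Pool.Q6.CI.dg G v = (G.neighborSet v).ncard := by
    intro V _ G v
    unfold Pool.Q6.CI.dg
    rw [← Set.ncard_coe_finset]
    congr 1
    ext w
    simp
  refine ⟨?_, ?_⟩
  · intro V _ G D p hD hd hk
    exact Pool.Agent.U369.HY.main_free G D p hD (fun v => (key V G v).trans_le (hd v)) hk
  · intro V _ G p hp hd
    exact Pool.Agent.U369.HY.main_all G p hp (fun v => (key V G v).trans_le (hd v))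

end Pool.Agent.Results.MP_b8729f_co.BrooksType
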