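import Pool.Agent.U797.NL.Quant
import Pool.Agent.H238R2.HY.Struct

set_option autoImplicit false

/-!
# The Havet-Yu conjecture for graphs without an induced forest and `p ≥ Δ ^ o(1)`

For every forest `F` and every `k` there are `C` and `c > 0` such that for all `D ≥ 1` and `p ≥ 1` every graph
`G` of maximum degree at most `D` with no induced subgraph `F` and no clique on `k` vertices has a
`(p,1)`-total labeling of span `D + p - 1 + exp (C (1 + log D) ^ (1 - c))`.  (The trivial lower bound is
`Δ + p - 1`.)  So the Havet-Yu conjecture holds for `G` if `p ≥ exp (C (1 + log D) ^ (1 - c))`, in particular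
if `p ≥ D ^ ε` and `D` is large.

The starting results for graphs of bounded clique number (`CliqueNumber`) and for triangle-free graphs need
`p` at least of order `D log log D / log D` and `D / log D`.

Proof.  By the theorem of `MP_763321_co.SubpolynomialDegree` the chromatic number of `G` is at most
`exp (C (1 + log D) ^ (1 - c))`.  The vertices get these colours as labels, and the edges the colours of a
proper edge colouring with `D + 1` colours (Vizing), shifted by `p - 1 + χ` (the bound `χ + χ' + p - 2` of
Havet and Yu).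
-/

namespace Pool.Agent.Results.MP_b8729f_co.NoInducedForest

/-- `TotalLabeling G p l`: the graph `G` has a `(p,1)`-total labeling of span `l`, that is, labels
`0, …, l` for the vertices (`fV`) and the edges (`fE`) such that adjacent vertices get different
labels, edges sharing an endpoint get different labels, and the labels of a vertex and of an
incident edge differ by at least `p`. -/
def TotalLabeling {V : Type} (G : SimpleGraph V) (p l : ℕ) : Prop :=
  ∃ (fV : V → ℕ) (fE : Sym2 V → ℕ),
    (∀ v, fV v ≤ l) ∧ (∀ e ∈ G.edgeSet, fE e ≤ l) ∧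
    (∀ u v, G.Adj u v → fV u ≠ fV v) ∧
    (∀ u v w, G.Adj u v → G.Adj u w → v ≠ w → fE s(u, v) ≠ fE s(u, w)) ∧
    (∀ u v, G.Adj u v → (p : ℤ) ≤ |(fV u : ℤ) - (fE s(u, v) : ℤ)|)

open Classical in
/-- the bound of Havet and Yu -/
theorem labeling_of_colorable {V : Type} [Fintype V] {G : SimpleGraph V} {D p N : ℕ}
    (hp : 1 ≤ p) (hdeg : ∀ v, (G.neighborSet v).ncard ≤ D) (h : G.Colorable N) :
    TotalLabeling G p (D + p - 1 + N) := by
  have hdeg' : ∀ v, G.degree v ≤ D := by
    intro v
    have := hdeg v
    rwa [Set.ncard_eq_toFinset_card', ← SimpleGraph.neighborFinset_def,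
      SimpleGraph.card_neighborFinset_eq_degree] at this
  obtain ⟨c, hc1, hc2, hc3⟩ := Pool.Agent.H238R2.HY.vizing G D hdeg'
  obtain ⟨C⟩ := h
  refine ⟨fun v => (C v : ℕ), Sym2.lift ⟨fun u v => N + (p - 1) + c u v, fun u v => by
    dsimp only
    rw [hc1 u v]⟩, ?_, ?_, ?_, ?_, ?_⟩
  · intro v
    have := (C v).2
    dsimp only
    omega
  · intro e he
    induction e using Sym2.ind with
    | _ u v =>
      rw [SimpleGraph.mem_edgeSet] at he
      have := hc2 u v he
      rw [Sym2.lift_mk]
      dsimp only
      omega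
  · intro u v huv h
    exact C.valid huv (Fin.ext h)
  · intro u v w huv huw hvw h
    rw [Sym2.lift_mk, Sym2.lift_mk] at h
    dsimp only at h
    exact hc3 u v w huv huw hvw (by omega)
  · intro u v huv
    rw [Sym2.lift_mk]
    dsimp only
    have h1 := (C u).2
    rw [abs_sub_comm, le_abs]
    left
    have h2 : ((p - 1 : ℕ) : ℤ) = (p : ℤ) - 1 := by omega
    push_cast [h2]
    omega

open Classical in
/-- For every forest `F` and every `k` there are `C` and `c > 0` such that for all `D, p ≥ 1` every finite graph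
`G` with all degrees at most `D`, with no induced subgraph `F` and without a clique on `k` vertices has a
`(p,1)`-total labeling of span `D + p - 1 + ⌊exp (C (1 + log D) ^ (1 - c))⌋`, and one of span `D + 2 p - 1` if
`p ≥ exp (C (1 + log D) ^ (1 - c))`. -/
theorem result (m : ℕ) (F : SimpleGraph (Fin m)) (hF : F.IsAcyclic) (k : ℕ) :
    ∃ C c : ℝ, 0 < c ∧ ∀ (V : Type) [Fintype V] (G : SimpleGraph V) (D p : ℕ), 1 ≤ D →
      1 ≤ p → (∀ v, (G.neighborSet v).ncard ≤ D) → ¬ F.IsIndContained G → G.CliqueFree k →
      TotalLabeling G p (D + p - 1 + ⌊Real.exp (C * (1 + Real.log D) ^ (1 - c))⌋₊) ∧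
      (Real.exp (C * (1 + Real.log D) ^ (1 - c)) ≤ p → TotalLabeling G p (D + 2 * p - 1)) := by
  obtain ⟨C, c, hc, H⟩ := Pool.Agent.U797.NL.chi_forestQ m F hF k
  refine ⟨C, c, hc, ?_⟩
  intro V _ G D p hD hp hdeg hFG hfree
  have hcol : G.Colorable ⌊Real.exp (C * (1 + Real.log D) ^ (1 - c))⌋₊ := by
    refine H V G D (by exact_mod_cast hD) ?_ hfree hFG
    intro v
    have h1 : (Pool.Agent.U797.LV.nb G v).card ≤ D := by
      refine le_trans ?_ (hdeg v)
      rw [← Set.ncard_coe_finset]
      apply Set.ncard_le_ncard _ (Set.toFinite _)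
      intro u hu
      have hu' : u ∈ Pool.Agent.U797.LV.nb G v := hu
      exact Pool.Agent.U797.LV.mem_nb.1 hu'
    exact_mod_cast h1
  refine ⟨labeling_of_colorable hp hdeg hcol, fun hpD => ?_⟩
  have h1 : ⌊Real.exp (C * (1 + Real.log D) ^ (1 - c))⌋₊ ≤ p := by
    have h2 : (⌊Real.exp (C * (1 + Real.log D) ^ (1 - c))⌋₊ : ℝ) ≤ p :=
      (Nat.floor_le (Real.exp_nonneg _)).trans hpD
    exact_mod_cast h2
  have h3 := labeling_of_colorable hp hdeg (hcol.mono h1)
  have h4 : D + p - 1 + p = D + 2 * p - 1 := by omega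
  rwa [h4] at h3

end Pool.Agent.Results.MP_b8729f_co.NoInducedForest
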