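import Pool.Agent.U531.SR.Tot2
import Pool.Agent.U531.SR.Conv

set_option autoImplicit false

/-!
# The Havet–Yu conjecture for random graphs of all densities

Asymptotically almost surely the random graph `G(n, q)` satisfies `λ_p^T(G) ≤ Δ(G) + 2 p - 1`:

* for all `p ≥ 1` simultaneously, uniformly in `q ≤ κ log n / n`, for every constant `κ`;
* for all `1 ≤ p ≤ P log n` simultaneously, uniformly in `q ≤ 1 - c`, for all constants `P`, `c > 0`.

For `p = 1` this is the total colouring conjecture; if `n q ≥ 1 / log n`, one gets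
`λ_p^T(G) ≤ Δ(G) + 2 p - 2` for every fixed `p`, so the total chromatic number is `Δ(G) + 1`.

Proof. For small `p` the deterministic theorem of the starting result `FewLargeDegrees` is applied:
if every vertex has at most `b` neighbours of degree more than `Δ - 3300 (b + 2) (p + log Δ)`, where
the last number is positive, then `λ_p^T(G) ≤ Δ(G) + 2 p - 2`. The condition on the degrees is
proved here for random graphs: for `n q ≤ κ log n` every vertex has a bounded number of neighbours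
of degree more than `(1 - δ) Δ` (`Pool.Agent.U531.SR.structure_thm`), and for `n q ≥ κ log n`,
`q ≤ 1 - c`, where `κ` is large, it is `Pool.Agent.U531.SR.win_thm`: the maximum degree is
estimated by the second moment, the other large degrees by comparing consecutive terms of the
binomial distribution. For `n q ≤ κ log n` and `p ≥ c Δ` the theorem of the starting result
`CliqueNumber` is applied, since a.a.s. there is no clique on four vertices. For
`n q < 1 / log n` the random graph is a.a.s. a forest, and the bound `Δ + p` for bipartite graphs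
is applied.
-/

namespace Pool.Agent.Results.MP_b8729f_co.RandomGraphsAllDensities

/-- `prob q P` is the probability that the random graph `G(n, q)` has the property `P`: every pair
of different vertices is an edge with probability `q`, independently. -/
noncomputable def prob {n : ℕ} (q : ℝ) (P : SimpleGraph (Fin n) → Prop) : ℝ := by
  classical exact ∑ G : SimpleGraph (Fin n), if P G then
    (∏ e : {e : Sym2 (Fin n) // ¬ e.IsDiag}, if e.1 ∈ G.edgeSet then q else 1 - q) else 0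

/-- `TotalLabeling G p l`: the graph `G` has a `(p,1)`-total labeling of span `l`, that is, labels
`0, …, l` for the vertices (`fV`) and the edges (`fE`) such that adjacent vertices get different
labels, edges sharing an endpoint get different labels, and the labels of a vertex and of an
incident edge differ by at least `p`. -/
def TotalLabeling {V : Type} (G : SimpleGraph V) (p l : ℕ) : Prop :=
  ∃ (fV : V → ℕ) (fE : Sym2 V → ℕ),
    (∀ v, fV v ≤ l) ∧ (∀ e ∈ G.edgeSet, fE e ≤ l) ∧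
    (∀ u v, G.Adj u v → fV u ≠ fV v) ∧
    (∀ u v w, G.Adj u v → G.Adj u w → v ≠ w → fE s(u, v) ≠ fE s(u, w)) ∧
    (∀ u v, G.Adj u v → (p : ℤ) ≤ |(fV u : ℤ) - (fE s(u, v) : ℤ)|)

/-- `D` is the maximum degree of `G`. -/
def IsMaxDegree {V : Type} (G : SimpleGraph V) (D : ℕ) : Prop :=
  (∀ v, (G.neighborSet v).ncard ≤ D) ∧ ∃ v, (G.neighborSet v).ncard = D

theorem sparse (κ : ℝ) (hκ : 0 < κ) : ∃ c : ℝ, 0 < c ∧ ∀ (ε : ℝ) (K : ℕ), 0 < ε →
    ∃ n₀ : ℕ, ∀ n : ℕ, n₀ ≤ n → ∀ q : ℝ, 0 ≤ q → q ≤ 1 → (n : ℝ) * q ≤ κ * Real.log n →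
      1 - ε ≤ prob q (fun G : SimpleGraph (Fin n) => ∃ D : ℕ, IsMaxDegree G D ∧
        (∀ p : ℕ, 1 ≤ p → TotalLabeling G p (D + 2 * p - 1)) ∧
        (1 / Real.log n ≤ n * q → (K : ℝ) ≤ c * D ∧
          ∀ p : ℕ, 1 ≤ p → (p : ℝ) ≤ c * D → TotalLabeling G p (D + 2 * p - 2))) := by
  obtain ⟨c, hc, h⟩ := Pool.Agent.U531.SR.tot_prob κ hκ
  refine ⟨c, hc, fun ε K hε => ?_⟩
  obtain ⟨n₀, h⟩ := Filter.eventually_atTop.1 (h ε K hε)
  refine ⟨max n₀ 1, fun n hn q hq0 hq1 hq => ?_⟩
  have h1 := h n ((le_max_left _ _).trans hn) q hq0 hq1 hq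
  have hn0 : 0 < n := (le_max_right n₀ 1).trans hn
  change 1 - ε ≤ Pool.Agent.U531.SR.probG q _
  rw [Pool.Agent.U531.SR.probG_eq]
  refine h1.trans (Pool.Agent.U531.SR.PR_mono hq0 hq1 (fun χ hχ => ?_))
  obtain ⟨D, hD⟩ := Pool.Agent.U531.SR.exists_isMax hn0 (Pool.Agent.U531.SR.gr χ)
  exact ⟨D, hD, hχ D hD⟩

theorem all (c ε P : ℝ) (K : ℕ) (hc : 0 < c) (hε : 0 < ε) :
    ∃ n₀ : ℕ, ∀ n : ℕ, n₀ ≤ n → ∀ q : ℝ, 0 ≤ q → q ≤ 1 - c →
      1 - ε ≤ prob q (fun G : SimpleGraph (Fin n) => ∃ D : ℕ, IsMaxDegree G D ∧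
        (∀ p : ℕ, 1 ≤ p → (p : ℝ) ≤ P * Real.log n → TotalLabeling G p (D + 2 * p - 1)) ∧
        (1 / Real.log n ≤ n * q →
          ∀ p : ℕ, 1 ≤ p → p ≤ K → TotalLabeling G p (D + 2 * p - 2))) := by
  obtain ⟨n₀, h⟩ := Filter.eventually_atTop.1
    (Pool.Agent.U531.SR.tot_prob_all c (max P 1) ε K hc (le_max_right _ _) hε)
  refine ⟨max n₀ 1, fun n hn q hq0 hq1 => ?_⟩
  have h1 := h n ((le_max_left _ _).trans hn) q hq0 hq1
  have hn0 : 0 < n := (le_max_right n₀ 1).trans hn
  change 1 - ε ≤ Pool.Agent.U531.SR.probG q _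
  rw [Pool.Agent.U531.SR.probG_eq]
  refine h1.trans (Pool.Agent.U531.SR.PR_mono hq0 (by linarith) (fun χ hχ => ?_))
  obtain ⟨D, hD⟩ := Pool.Agent.U531.SR.exists_isMax hn0 (Pool.Agent.U531.SR.gr χ)
  obtain ⟨b1, b2⟩ := hχ D hD
  refine ⟨D, hD, fun p hp hpP => b1 p hp (hpP.trans ?_), b2⟩
  exact mul_le_mul_of_nonneg_right (le_max_left _ _) (Real.log_natCast_nonneg n)

/-- (1) For every `κ > 0` there is `c > 0` such that for all `ε > 0`, all `K` and all large `n` the
following holds. If `n q ≤ κ log n`, then with probability at least `1 - ε` the random graph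
`G = G(n, q)`, with maximum degree `D`, has a `(p,1)`-total labeling of span `D + 2 p - 1` for EVERY
`p ≥ 1`; and if moreover `n q ≥ 1 / log n`, then (in the same event) `c D ≥ K` and `G` has a
`(p,1)`-total labeling of span `D + 2 p - 2` for every `1 ≤ p ≤ c D`.

(2) For all `c, ε > 0`, all `P`, `K` and all large `n` the following holds for all
`0 ≤ q ≤ 1 - c`. With probability at least `1 - ε` the random graph `G = G(n, q)`, with maximum
degree `D`, has a `(p,1)`-total labeling of span `D + 2 p - 1` for every `1 ≤ p ≤ P log n`; and if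
moreover `n q ≥ 1 / log n`, then (in the same event) it has a `(p,1)`-total labeling of span
`D + 2 p - 2` for every `1 ≤ p ≤ K`. -/
theorem result :
    (∀ κ : ℝ, 0 < κ → ∃ c : ℝ, 0 < c ∧ ∀ (ε : ℝ) (K : ℕ), 0 < ε →
      ∃ n₀ : ℕ, ∀ n : ℕ, n₀ ≤ n → ∀ q : ℝ, 0 ≤ q → q ≤ 1 → (n : ℝ) * q ≤ κ * Real.log n →
        1 - ε ≤ prob q (fun G : SimpleGraph (Fin n) => ∃ D : ℕ, IsMaxDegree G D ∧
          (∀ p : ℕ, 1 ≤ p → TotalLabeling G p (D + 2 * p - 1)) ∧
          (1 / Real.log n ≤ n * q → (K : ℝ) ≤ c * D ∧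
            ∀ p : ℕ, 1 ≤ p → (p : ℝ) ≤ c * D → TotalLabeling G p (D + 2 * p - 2)))) ∧
    (∀ (c ε P : ℝ) (K : ℕ), 0 < c → 0 < ε →
      ∃ n₀ : ℕ, ∀ n : ℕ, n₀ ≤ n → ∀ q : ℝ, 0 ≤ q → q ≤ 1 - c →
        1 - ε ≤ prob q (fun G : SimpleGraph (Fin n) => ∃ D : ℕ, IsMaxDegree G D ∧
          (∀ p : ℕ, 1 ≤ p → (p : ℝ) ≤ P * Real.log n → TotalLabeling G p (D + 2 * p - 1)) ∧
          (1 / Real.log n ≤ n * q →
            ∀ p : ℕ, 1 ≤ p → p ≤ K → TotalLabeling G p (D + 2 * p - 2)))) :=
  ⟨sparse, fun c ε P K hc hε => all c ε P K hc hε⟩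

end Pool.Agent.Results.MP_b8729f_co.RandomGraphsAllDensities
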