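import Mathlib
import Pool.Agent.U122.HY.Final

/-!
# The Havet-Yu conjecture on (p,1)-total labelings up to a square root error

Every finite graph of maximum degree `D` has, for `1 ≤ p < D / 2`, a circular `(p,1)`-total
labeling with at most

  `D + 2 p + 75 (D / (D - 2 p)) (√D + √(p log D) + D ^ 2 log D / p ^ 2)`

labels.  For `D ^ (3/4) (log D) ^ (1/2) ≤ p ≤ (1/2 - ε) D` the error is `O(√D + √(p log D))`.

Proof.  The circle of the labels is divided into `m` blocks of length about `√D`.  Every vertex gets
a random type in `ℤ / m`; a vertex of type `s` uses the blocks `s, …, s + L - 1` for its edges and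
gets its own label in the middle of the remaining arc of `f = m - L` blocks, of length about `2 p`
(the vertices with `g` consecutive types share an interval of labels).  There is a symmetric
weight `W(a, b)`, with values between `0` and `L`, such that, if a pair of types `s, t` uses the
block `i` with weight `W(i - s, i - t)`, then every type has the same load, `(L + f) (L - f)`, at
all its blocks, and every pair of types has total weight `L (L - f)` up to `f`: `W = L` if the
positions `a`, `b` differ by at least `f`, and otherwise `W = L - f + f [f ≤ a + b ≤ 2 L - f - 2]`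
minus the number of the intervals `[θ, θ + f - 1]`, `1 ≤ θ ≤ L - 1 - f`, which contain `a` and
`b`.  By the local lemma and a Chernoff bound the loads of the vertices of the graph differ from
those of the types by a total of `O(√(p log D))`, because the weight is almost constant except on
the forbidden arcs.  The fractional distribution of the edges to the blocks is rounded (linear
algebra, as in the theorem of Beck and Fiala) with an error of at most `4` in each block, and the
edges of each block are coloured by Vizing's theorem.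
-/

set_option autoImplicit false

namespace Pool.Agent.Results.MP_b8729f_co.SquareRootError

/-- `TotalLabeling G p l`: the graph `G` has a `(p,1)`-total labeling of span `l`, that is, labels
`0, …, l` for the vertices (`fV`) and the edges (`fE`) such that adjacent vertices get different
labels, edges sharing an endpoint get different labels, and the labels of a vertex and of an
incident edge differ by at least `p`. -/
def TotalLabeling {V : Type} (G : SimpleGraph V) (p l : ℕ) : Prop :=
  ∃ (fV : V → ℕ) (fE : Sym2 V → ℕ),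
    (∀ v, fV v ≤ l) ∧ (∀ e ∈ G.edgeSet, fE e ≤ l) ∧
    (∀ u v, G.Adj u v → fV u ≠ fV v) ∧
    (∀ u v w, G.Adj u v → G.Adj u w → v ≠ w → fE s(u, v) ≠ fE s(u, w)) ∧
    (∀ u v, G.Adj u v → (p : ℤ) ≤ |(fV u : ℤ) - (fE s(u, v) : ℤ)|)

/-- `CircularLabeling G p N`: a circular `(p,1)`-total labeling of `G` with the `N` labels
`0, …, N - 1` placed around a circle: as above, but the distance of the labels of a vertex and of
an incident edge, measured around the circle, is at least `p`
(so `p ≤ |fV u - fE uv| ≤ N - p`). -/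
def CircularLabeling {V : Type} (G : SimpleGraph V) (p N : ℕ) : Prop :=
  ∃ (fV : V → ℕ) (fE : Sym2 V → ℕ),
    (∀ v, fV v < N) ∧ (∀ e ∈ G.edgeSet, fE e < N) ∧
    (∀ u v, G.Adj u v → fV u ≠ fV v) ∧
    (∀ u v w, G.Adj u v → G.Adj u w → v ≠ w → fE s(u, v) ≠ fE s(u, w)) ∧
    (∀ u v, G.Adj u v → (p : ℤ) ≤ |(fV u : ℤ) - (fE s(u, v) : ℤ)| ∧
      |(fV u : ℤ) - (fE s(u, v) : ℤ)| ≤ (N : ℤ) - p)

theorem circ_lin {V : Type} {G : SimpleGraph V} {p N : ℕ} (h : CircularLabeling G p N) :
    TotalLabeling G p (N - 1) := by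
  obtain ⟨fV, fE, h1, h2, h3, h4, h5⟩ := h
  exact ⟨fV, fE, fun v => Nat.le_sub_one_of_lt (h1 v), fun e he => Nat.le_sub_one_of_lt (h2 e he),
    h3, h4, fun u v huv => (h5 u v huv).1⟩

/-- **The Havet-Yu conjecture up to a square root error.**  Let `G` be a finite graph of maximum
degree `D` and let `1 ≤ p < D / 2`.  Then `G` has a circular `(p,1)`-total labeling with
`N ≤ D + 2 p + 75 (D / (D - 2 p)) (√D + √(p log D) + D ^ 2 log D / p ^ 2)` labels, and so a
`(p,1)`-total labeling of span `N - 1`.  In particular, if `2 p ≤ (1 - ε) D` with `ε > 0` and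
`D √D log D ≤ p ^ 2`, then `N ≤ D + 2 p + (150 / ε) (√D + √(p log D))`. -/
theorem result :
    ∀ (V : Type) [Fintype V] (G : SimpleGraph V) [DecidableRel G.Adj] (p : ℕ), 1 ≤ p →
      2 * p < G.maxDegree →
      ∃ N : ℕ, CircularLabeling G p N ∧ TotalLabeling G p (N - 1) ∧
        (N : ℝ) ≤ G.maxDegree + 2 * p + 75 * (G.maxDegree / (G.maxDegree - 2 * p)) *
          (√G.maxDegree + √(p * Real.log G.maxDegree) +
            (G.maxDegree : ℝ) ^ 2 * Real.log G.maxDegree / (p : ℝ) ^ 2) ∧
        ∀ ε : ℝ, 0 < ε → 2 * (p : ℝ) ≤ (1 - ε) * G.maxDegree →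
          (G.maxDegree : ℝ) * √G.maxDegree * Real.log G.maxDegree ≤ (p : ℝ) ^ 2 →
          (N : ℝ) ≤ G.maxDegree + 2 * p +
            150 / ε * (√G.maxDegree + √(p * Real.log G.maxDegree)) := by
  intro V _ G _ p hp h2p
  obtain ⟨N, hN, hC⟩ := Pool.Agent.U122.HY.main2 G p hp h2p
  refine ⟨N, hC, circ_lin hC, hN, ?_⟩
  intro ε hε h1 h2
  refine hN.trans ?_
  have hPr : (1 : ℝ) ≤ p := by exact_mod_cast hp
  have hPD : 2 * (p : ℝ) < G.maxDegree := by exact_mod_cast h2p
  have hDr : (1 : ℝ) ≤ G.maxDegree := by linarith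
  have hs0 : 0 ≤ √(G.maxDegree : ℝ) := Real.sqrt_nonneg _
  have hr0 : 0 ≤ √(p * Real.log G.maxDegree) := Real.sqrt_nonneg _
  have hs2 : √(G.maxDegree : ℝ) * √(G.maxDegree : ℝ) = G.maxDegree :=
    Real.mul_self_sqrt (by linarith)
  have hl0 : 0 ≤ Real.log G.maxDegree := Real.log_nonneg hDr
  have hgap0 : 0 < (G.maxDegree : ℝ) - 2 * p := by linarith
  have h3 : (G.maxDegree : ℝ) / (G.maxDegree - 2 * p) ≤ 1 / ε := by
    rw [div_le_div_iff₀ hgap0 hε]
    linarith
  have h4 : (G.maxDegree : ℝ) ^ 2 * Real.log G.maxDegree / (p : ℝ) ^ 2 ≤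
      √(G.maxDegree : ℝ) := by
    rw [div_le_iff₀ (by positivity)]
    have h5 := mul_le_mul_of_nonneg_left h2 hs0
    have h6 : √(G.maxDegree : ℝ) * ((G.maxDegree : ℝ) * √(G.maxDegree : ℝ) *
        Real.log G.maxDegree) = (G.maxDegree : ℝ) ^ 2 * Real.log G.maxDegree := by
      calc √(G.maxDegree : ℝ) * ((G.maxDegree : ℝ) * √(G.maxDegree : ℝ) *
          Real.log G.maxDegree) = (√(G.maxDegree : ℝ) * √(G.maxDegree : ℝ)) *
            ((G.maxDegree : ℝ) * Real.log G.maxDegree) := by ring
        _ = _ := by rw [hs2]; ring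
    rw [h6] at h5
    linarith
  have h7 : Pool.Agent.U122.HY.err2 G.maxDegree p ≤
      2 * (√(G.maxDegree : ℝ) + √(p * Real.log G.maxDegree)) := by
    unfold Pool.Agent.U122.HY.err2
    linarith
  have h8 : 75 * ((G.maxDegree : ℝ) / (G.maxDegree - 2 * p)) *
      Pool.Agent.U122.HY.err2 G.maxDegree p ≤ 75 * (1 / ε) *
        (2 * (√(G.maxDegree : ℝ) + √(p * Real.log G.maxDegree))) := by
    have h9 : 0 ≤ Pool.Agent.U122.HY.err2 G.maxDegree p := by
      unfold Pool.Agent.U122.HY.err2
      positivity
    gcongr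
  have h10 : 75 * (1 / ε) * (2 * (√(G.maxDegree : ℝ) + √(p * Real.log G.maxDegree))) =
      150 / ε * (√(G.maxDegree : ℝ) + √(p * Real.log G.maxDegree)) := by ring
  linarith

end Pool.Agent.Results.MP_b8729f_co.SquareRootError
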